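import Mathlib

set_option autoImplicit false

/-!
Counting words with prescribed numbers of occurrences of every letter.
-/

namespace Pool.Agent.Y370.Bitprobe

open Finset

/-- The number of occurrences of the letter `l` in the word `u`. -/
def occ {k s : ℕ} (u : Fin k → Fin s) (l : Fin s) : ℕ := (univ.filter (fun i => u i = l)).card

/-- Words of length `k` in which every letter `l` occurs exactly `n l` times. -/
abbrev Words (k s : ℕ) (n : Fin s → ℕ) : Type := {u : Fin k → Fin s // ∀ l, occ u l = n l}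

theorem sum_word {k s : ℕ} (u : Fin k → Fin s) (F : Fin s → ℕ) :
    ∑ i, F (u i) = ∑ l, occ u l * F l := by
  rw [← Finset.sum_fiberwise' univ u F]
  apply Finset.sum_congr rfl
  intro l _
  rw [Finset.sum_const, smul_eq_mul, occ]

theorem prod_word {k s : ℕ} (u : Fin k → Fin s) (F : Fin s → ℕ) :
    ∏ i, F (u i) = ∏ l, F l ^ occ u l := by
  rw [← Finset.prod_fiberwise' univ u F]
  apply Finset.prod_congr rfl
  intro l _
  rw [Finset.prod_const, occ]

theorem occ_comp {k s t : ℕ} (u : Fin k → Fin s) (f : Fin s → Fin t) (a : Fin t) :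
    occ (fun i => f (u i)) a = ∑ l, if f l = a then occ u l else 0 := by
  have h1 : occ (fun i => f (u i)) a = ∑ i, if f (u i) = a then 1 else 0 := by
    rw [occ, Finset.card_filter]
  rw [h1, sum_word u (fun l => if f l = a then 1 else 0)]
  apply Finset.sum_congr rfl
  intro l _
  split_ifs <;> simp

/-- Upper bound for the number of words of a given type. -/
theorem card_words_le {k s : ℕ} (n w : Fin s → ℕ) :
    Fintype.card (Words k s n) * ∏ l, w l ^ n l ≤ (∑ l, w l) ^ k := by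
  classical
  rw [Fintype.sum_pow]
  have h1 : ∑ p : Words k s n, ∏ i, w (p.1 i) ≤ ∑ p : Fin k → Fin s, ∏ i, w (p i) := by
    rw [← Finset.sum_subtype (s := univ.filter (fun u : Fin k → Fin s => ∀ l, occ u l = n l))
      (p := fun u => ∀ l, occ u l = n l) (fun u => by simp) (fun u => ∏ i, w (u i))]
    exact Finset.sum_le_sum_of_subset (Finset.filter_subset _ _)
  refine le_trans (le_of_eq ?_) h1
  have h2 : ∀ p : Words k s n, ∏ i, w (p.1 i) = ∏ l, w l ^ n l := by
    intro p
    rw [prod_word]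
    apply Finset.prod_congr rfl
    intro l _
    rw [p.2 l]
  rw [Finset.sum_congr rfl (fun p _ => h2 p), Finset.sum_const, Finset.card_univ, smul_eq_mul]

/-- There is a word of each type. -/
theorem exists_word {k s : ℕ} (n : Fin s → ℕ) (hn : ∑ l, n l = k) :
    ∃ u : Fin k → Fin s, ∀ l, occ u l = n l := by
  classical
  have hc : Fintype.card (Fin k) = Fintype.card (Σ l : Fin s, Fin (n l)) := by
    rw [Fintype.card_sigma]
    simp [hn]
  let e := Fintype.equivOfCardEq hc
  refine ⟨fun i => (e i).1, fun l => ?_⟩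
  rw [occ, ← Fintype.card_subtype]
  have e2 : {i : Fin k // (e i).1 = l} ≃ {p : (Σ l : Fin s, Fin (n l)) // p.1 = l} :=
    e.subtypeEquiv (fun _ => Iff.rfl)
  rw [Fintype.card_congr e2]
  have e3 : {p : (Σ l : Fin s, Fin (n l)) // p.1 = l} ≃ Fin (n l) := Equiv.sigmaSubtype l
  rw [Fintype.card_congr e3, Fintype.card_fin]

/-- Lower bound for the number of words of a given type. -/
theorem le_card_words {k s : ℕ} (n : Fin s → ℕ) (hn : ∑ l, n l = k) :
    k.factorial ≤ Fintype.card (Words k s n) * ∏ l, (n l).factorial := by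
  classical
  obtain ⟨u, hu⟩ := exists_word n hn
  have hocc : ∀ g : Equiv.Perm (Fin k), ∀ l, occ (fun i => u (g i)) l = n l := by
    intro g l
    rw [← hu l, occ, occ]
    apply Finset.card_bij (fun i _ => g i)
    · intro i hi
      simpa using hi
    · intro i _ j _ h
      exact g.injective h
    · intro j hj
      exact ⟨g.symm j, by simpa using hj, by simp⟩
  let Φ : Equiv.Perm (Fin k) → Words k s n := fun g => ⟨fun i => u (g i), hocc g⟩
  have hfib : ∀ v : Words k s n, (univ.filter (fun g => Φ g = v)).card ≤ ∏ l, (n l).factorial := by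
    intro v
    by_cases hv : ∃ g0, Φ g0 = v
    · obtain ⟨g0, hg0⟩ := hv
      have hst : Fintype.card {g : Equiv.Perm (Fin k) // u ∘ g = u} = ∏ l, (n l).factorial := by
        rw [DomMulAct.stabilizer_card]
        apply Finset.prod_congr rfl
        intro l _
        rw [← hu l, occ, Fintype.card_subtype]
      rw [← hst, ← Fintype.card_subtype]
      refine Fintype.card_le_of_injective
        (fun g : {g : Equiv.Perm (Fin k) // Φ g = v} =>
          (⟨g.1 * g0⁻¹, ?_⟩ : {g : Equiv.Perm (Fin k) // u ∘ g = u})) ?_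
      · funext i
        have h1 : (Φ g.1).1 (g0⁻¹ i) = (Φ g0).1 (g0⁻¹ i) := by rw [g.2, hg0]
        simpa [Φ] using h1
      · intro g g' h
        simp only [Subtype.mk.injEq, mul_left_inj] at h
        exact Subtype.ext h
    · have h0 : univ.filter (fun g => Φ g = v) = ∅ := by
        rw [Finset.filter_eq_empty_iff]
        intro g _ h
        exact hv ⟨g, h⟩
      rw [h0]
      simp
  calc k.factorial = (univ : Finset (Equiv.Perm (Fin k))).card := by
        rw [Finset.card_univ, Fintype.card_perm, Fintype.card_fin]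
    _ = ∑ v : Words k s n, (univ.filter (fun g => Φ g = v)).card :=
        Finset.card_eq_sum_card_fiberwise (fun _ _ => Finset.mem_coe.2 (Finset.mem_univ _))
    _ ≤ ∑ _v : Words k s n, ∏ l, (n l).factorial := Finset.sum_le_sum (fun v _ => hfib v)
    _ = _ := by rw [Finset.sum_const, Finset.card_univ, smul_eq_mul]

/-! ### Factorials -/

theorem pow_le_factorial (n : ℕ) : (n : ℝ) ^ n ≤ Real.exp n * n.factorial := by
  have h := Real.pow_div_factorial_le_exp (x := (n : ℝ)) (by positivity) n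
  have h2 : (0 : ℝ) < n.factorial := by exact_mod_cast n.factorial_pos
  rw [div_le_iff₀ h2] at h
  exact h

theorem step_exp (n : ℕ) : Real.exp 1 * ((n : ℝ) + 1) ^ (n + 2) ≤ ((n : ℝ) + 2) ^ (n + 2) := by
  have hn : (0 : ℝ) < (n : ℝ) + 2 := by positivity
  have h1 : ((n : ℝ) + 1) / (n + 2) ≤ Real.exp (-(1 / ((n : ℝ) + 2))) := by
    have h2 := Real.add_one_le_exp (-(1 / ((n : ℝ) + 2)))
    have h3 : ((n : ℝ) + 1) / (n + 2) = -(1 / ((n : ℝ) + 2)) + 1 := by
      field_simp
      ring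
    rw [h3]
    exact h2
  have h4 : (((n : ℝ) + 1) / (n + 2)) ^ (n + 2) ≤ Real.exp (-1) := by
    calc (((n : ℝ) + 1) / (n + 2)) ^ (n + 2) ≤ (Real.exp (-(1 / ((n : ℝ) + 2)))) ^ (n + 2) :=
          pow_le_pow_left₀ (by positivity) h1 _
      _ = Real.exp (-1) := by
          rw [← Real.exp_nat_mul]
          congr 1
          push_cast
          field_simp
  rw [div_pow, div_le_iff₀ (by positivity)] at h4
  calc Real.exp 1 * ((n : ℝ) + 1) ^ (n + 2) ≤ Real.exp 1 * (Real.exp (-1) * (n + 2) ^ (n + 2)) :=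
        mul_le_mul_of_nonneg_left h4 (Real.exp_pos _).le
    _ = ((n : ℝ) + 2) ^ (n + 2) := by
        rw [← mul_assoc, ← Real.exp_add]
        simp

theorem factorial_succ_le (n : ℕ) :
    ((n + 1).factorial : ℝ) * Real.exp (n + 1) ≤ Real.exp 1 * ((n : ℝ) + 1) ^ (n + 2) := by
  induction n with
  | zero => simp
  | succ n ih =>
    have h1 : (((n + 1 + 1).factorial : ℕ) : ℝ) = ((n : ℝ) + 2) * ((n + 1).factorial : ℝ) := by
      rw [Nat.factorial_succ (n + 1)]
      push_cast
      ring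
    have h2 : Real.exp (((n + 1 : ℕ) : ℝ) + 1) = Real.exp 1 * Real.exp ((n : ℝ) + 1) := by
      rw [← Real.exp_add]
      congr 1
      push_cast
      ring
    rw [h1, h2]
    have h3 := step_exp n
    have h4 : (0 : ℝ) < Real.exp 1 := Real.exp_pos _
    calc ((n : ℝ) + 2) * ((n + 1).factorial : ℝ) * (Real.exp 1 * Real.exp ((n : ℝ) + 1))
        = ((n : ℝ) + 2) * Real.exp 1 * (((n + 1).factorial : ℝ) * Real.exp ((n : ℝ) + 1)) := by ring
      _ ≤ ((n : ℝ) + 2) * Real.exp 1 * (Real.exp 1 * ((n : ℝ) + 1) ^ (n + 2)) :=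
          mul_le_mul_of_nonneg_left ih (by positivity)
      _ ≤ ((n : ℝ) + 2) * Real.exp 1 * (((n : ℝ) + 2) ^ (n + 2)) :=
          mul_le_mul_of_nonneg_left h3 (by positivity)
      _ = Real.exp 1 * (((n + 1 : ℕ) : ℝ) + 1) ^ (n + 1 + 2) := by
          push_cast
          ring

theorem factorial_le (n : ℕ) (hn : 1 ≤ n) :
    (n.factorial : ℝ) * Real.exp n ≤ Real.exp 1 * n * (n : ℝ) ^ n := by
  obtain ⟨m, rfl⟩ : ∃ m, n = m + 1 := ⟨n - 1, by omega⟩
  have h := factorial_succ_le m
  push_cast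
  calc ((m + 1).factorial : ℝ) * Real.exp ((m : ℝ) + 1) ≤ Real.exp 1 * ((m : ℝ) + 1) ^ (m + 2) := h
    _ = Real.exp 1 * ((m : ℝ) + 1) * ((m : ℝ) + 1) ^ (m + 1) := by ring

/-- The number of words with `w l * j` occurrences of each letter `l` is exponentially large in
`j`, with the entropy as rate, up to a polynomial factor. -/
theorem entropy_le {s : ℕ} (w : Fin s → ℕ) (hw : ∀ l, 1 ≤ w l) (j : ℕ) (hj : 1 ≤ j) :
    (((∑ l, w l : ℕ) : ℝ) ^ (∑ l, w l)) ^ j ≤
      (∏ l, (Real.exp 1 * (w l : ℝ))) * (j : ℝ) ^ s *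
        ((∏ l, (w l : ℝ) ^ w l) ^ j *
        Fintype.card (Words ((∑ l, w l) * j) s (fun l => w l * j))) := by
  classical
  set W : ℕ := ∑ l, w l with hW
  set n : Fin s → ℕ := fun l => w l * j with hn
  have hsum : ∑ l, n l = W * j := by rw [hn, hW, Finset.sum_mul]
  have h1 := le_card_words n hsum
  have h2 := pow_le_factorial (W * j)
  set N : ℕ := Fintype.card (Words (W * j) s n) with hN
  have hj0 : (0 : ℝ) < j := by exact_mod_cast hj
  -- factorials of the parts
  have h3 : (∏ l, ((n l).factorial : ℝ)) * Real.exp ((W * j : ℕ) : ℝ) ≤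
      ∏ l, (Real.exp 1 * n l * (n l : ℝ) ^ n l) := by
    have h4 : Real.exp ((W * j : ℕ) : ℝ) = ∏ l, Real.exp (n l : ℝ) := by
      rw [← Real.exp_sum]
      congr 1
      rw [← hsum]
      push_cast
      rfl
    rw [h4, ← Finset.prod_mul_distrib]
    apply Finset.prod_le_prod
    · intro l _
      positivity
    · intro l _
      apply factorial_le
      have := hw l
      simp only [hn]
      exact Nat.one_le_iff_ne_zero.2 (by positivity)
  have h5 : ∏ l, (Real.exp 1 * n l * (n l : ℝ) ^ n l) =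
      (∏ l, (Real.exp 1 * (w l : ℝ))) * (j : ℝ) ^ s *
        ((∏ l, (w l : ℝ) ^ w l) ^ j * (j : ℝ) ^ (W * j)) := by
    have h6 : ∀ l, Real.exp 1 * (n l : ℝ) * (n l : ℝ) ^ n l =
        ((Real.exp 1 * (w l : ℝ)) * j) * (((w l : ℝ) ^ w l) ^ j * (j : ℝ) ^ n l) := by
      intro l
      have h7 : ((n l : ℕ) : ℝ) = (w l : ℝ) * j := by simp [hn]
      rw [h7, mul_pow]
      have h8 : ((w l : ℝ)) ^ n l = ((w l : ℝ) ^ w l) ^ j := by
        rw [← pow_mul]
      rw [h8]
      ring
    have e1 : ∏ l : Fin s, ((Real.exp 1 * (w l : ℝ)) * (j : ℝ)) =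
        (∏ l, (Real.exp 1 * (w l : ℝ))) * (j : ℝ) ^ s := by
      rw [Finset.prod_mul_distrib (f := fun l => Real.exp 1 * (w l : ℝ)), Finset.prod_const,
        Finset.card_univ, Fintype.card_fin]
    have e2 : ∏ l : Fin s, (((w l : ℝ) ^ w l) ^ j * (j : ℝ) ^ n l) =
        (∏ l, (w l : ℝ) ^ w l) ^ j * (j : ℝ) ^ (W * j) := by
      rw [Finset.prod_mul_distrib, Finset.prod_pow, Finset.prod_pow_eq_pow_sum, hsum]
    rw [Finset.prod_congr rfl (fun l _ => h6 l), Finset.prod_mul_distrib, e1, e2]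
  have h9 : (((W * j : ℕ) : ℝ)) ^ (W * j) = ((W : ℝ) ^ W) ^ j * (j : ℝ) ^ (W * j) := by
    push_cast
    rw [mul_pow, ← pow_mul]
  have h10 : ((W * j).factorial : ℝ) ≤ N * ∏ l, ((n l).factorial : ℝ) := by
    exact_mod_cast h1
  have h11 : ((W : ℝ) ^ W) ^ j * (j : ℝ) ^ (W * j) ≤
      ((∏ l, (Real.exp 1 * (w l : ℝ))) * (j : ℝ) ^ s *
        ((∏ l, (w l : ℝ) ^ w l) ^ j * N)) * (j : ℝ) ^ (W * j) := by
    rw [← h9]
    calc (((W * j : ℕ) : ℝ)) ^ (W * j) ≤ Real.exp ((W * j : ℕ) : ℝ) * (W * j).factorial := h2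
      _ ≤ Real.exp ((W * j : ℕ) : ℝ) * (N * ∏ l, ((n l).factorial : ℝ)) :=
          mul_le_mul_of_nonneg_left h10 (Real.exp_pos _).le
      _ = N * ((∏ l, ((n l).factorial : ℝ)) * Real.exp ((W * j : ℕ) : ℝ)) := by ring
      _ ≤ N * ((∏ l, (Real.exp 1 * (w l : ℝ))) * (j : ℝ) ^ s *
        ((∏ l, (w l : ℝ) ^ w l) ^ j * (j : ℝ) ^ (W * j))) := by
          rw [← h5]
          exact mul_le_mul_of_nonneg_left h3 (by positivity)
      _ = _ := by ring
  exact le_of_mul_le_mul_right h11 (by positivity)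

end Pool.Agent.Y370.Bitprobe
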