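import Mathlib
import Pool.Agent.Y370.Bitprobe.Count
import Pool.Agent.Results.MP_b7335c_lc.TwoProbePowerSaving

set_option autoImplicit false

namespace Pool.Agent.Y370.Bitprobe.BetterExponent

open Finset
open Pool.Agent.Results.MP_b7335c_lc.TwoProbePowerSaving (Correct HasScheme minSpace correct_two
  transfer)
open Pool.Agent.Y370.Bitprobe

/-! ### The eight letters and their positions -/

def bA : Fin 8 → Fin 4 := ![2, 0, 0, 3, 3, 1, 2, 1]
def bB : Fin 8 → Fin 4 := ![3, 3, 0, 0, 2, 0, 2, 1]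
def bC : Fin 8 → Fin 4 := ![1, 3, 2, 0, 3, 1, 2, 3]

/-- Relative frequencies of the letters. -/
def wt : Fin 8 → ℕ := ![9, 14, 14, 1, 4, 4, 9, 1]

def wA : Fin 4 → ℕ := ![28, 5, 18, 5]
def wB : Fin 4 → ℕ := ![19, 1, 13, 23]
def wC : Fin 4 → ℕ := ![1, 13, 23, 19]

def fx : Fin 8 → ℕ := ![0, 1, 1, 4, 2, 0, 0, 0]
def fy : Fin 8 → ℕ := ![0, 1, 1, 4, 4, 0, 0, 0]
def fr : Fin 8 → ℕ := ![0, 0, 0, 0, 2, 0, 0, 0]

def ne4 (a b : Fin 4) : ℕ := if a = b then 0 else 1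

theorem letB : ∀ x y : Fin 8, bA x = bA y → bB x = bB y → x = y := by decide
theorem letC : ∀ x y : Fin 8, bA x = bA y → bC x = bC y → x = y := by decide
theorem letF : ∀ x : Fin 8, fy x = fx x + fr x := by decide

theorem let0 : ∀ x y p : Fin 8, (bA p = bA x ∧ bB p = bB y) →
    ∀ q : Fin 8, (bA q = bA x ∧ bC q = bC y) → bA x = bA y := by decide

theorem let2 : ∀ x y p : Fin 8, (bA p = bA x ∧ bB p = bB y) →
    ∀ q : Fin 8, (bA q = bA y ∧ bC q = bC x) →
    ∀ r t : Fin 8, (bB r = bB x ∧ bC t = bC y ∧ bA r = bA t) →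
    ne4 (bA x) (bA y) + fy y ≤ fx x + fr r := by decide

theorem push_A : ∀ a, ∑ l, (if bA l = a then wt l else 0) = wA a := by decide
theorem push_B : ∀ a, ∑ l, (if bB l = a then wt l else 0) = wB a := by decide
theorem push_C : ∀ a, ∑ l, (if bC l = a then wt l else 0) = wC a := by decide

/-! ### Words -/

/-- The elements: words with `wt l * j` letters `l`. -/
abbrev X (j : ℕ) : Type := Words ((∑ l, wt l) * j) 8 (fun l => wt l * j)

/-- The positions in one of the tables. -/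
abbrev P (j : ℕ) (w : Fin 4 → ℕ) : Type := Words ((∑ l, wt l) * j) 4 (fun l => w l * j)

/-- The position of an element. -/
def pos (j : ℕ) (f : Fin 8 → Fin 4) (w : Fin 4 → ℕ)
    (h : ∀ a, ∑ l, (if f l = a then wt l else 0) = w a) (x : X j) : P j w :=
  ⟨fun i => f (x.1 i), fun a => by
    show occ (fun i => f (x.1 i)) a = w a * j
    have e : w a * j = ∑ l, (if f l = a then wt l else 0) * j := by
      rw [← h a, Finset.sum_mul]
    rw [occ_comp, e]
    apply Finset.sum_congr rfl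
    intro l _
    rw [x.2 l]
    split_ifs <;> simp⟩

theorem pos_eq {j : ℕ} {f : Fin 8 → Fin 4} {w : Fin 4 → ℕ}
    {h : ∀ a, ∑ l, (if f l = a then wt l else 0) = w a} {x y : X j}
    (he : pos j f w h x = pos j f w h y) (i) : f (x.1 i) = f (y.1 i) :=
  congrFun (congrArg Subtype.val he) i

theorem pos_mk {j : ℕ} {f : Fin 8 → Fin 4} {w : Fin 4 → ℕ}
    {h : ∀ a, ∑ l, (if f l = a then wt l else 0) = w a} {x y : X j}
    (he : ∀ i, f (x.1 i) = f (y.1 i)) : pos j f w h x = pos j f w h y :=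
  Subtype.ext (funext he)

theorem word2 {j : ℕ} (x y p q r t : X j)
    (h1 : ∀ i, bA (p.1 i) = bA (x.1 i)) (h2 : ∀ i, bB (p.1 i) = bB (y.1 i))
    (h3 : ∀ i, bA (q.1 i) = bA (y.1 i)) (h4 : ∀ i, bC (q.1 i) = bC (x.1 i))
    (h5 : ∀ i, bB (r.1 i) = bB (x.1 i)) (h6 : ∀ i, bC (t.1 i) = bC (y.1 i))
    (h7 : ∀ i, bA (r.1 i) = bA (t.1 i)) : ∀ i, bA (x.1 i) = bA (y.1 i) := by
  have hsum : ∑ i, (ne4 (bA (x.1 i)) (bA (y.1 i)) + fy (y.1 i)) ≤
      ∑ i, (fx (x.1 i) + fr (r.1 i)) := by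
    apply Finset.sum_le_sum
    intro i _
    exact let2 (x.1 i) (y.1 i) (p.1 i) ⟨h1 i, h2 i⟩ (q.1 i) ⟨h3 i, h4 i⟩ (r.1 i) (t.1 i)
      ⟨h5 i, h6 i, h7 i⟩
  rw [Finset.sum_add_distrib, Finset.sum_add_distrib, sum_word y.1 fy, sum_word x.1 fx,
    sum_word r.1 fr] at hsum
  have e1 : ∑ l, occ y.1 l * fy l = ∑ l, (wt l * j) * fx l + ∑ l, (wt l * j) * fr l := by
    rw [← Finset.sum_add_distrib]
    apply Finset.sum_congr rfl
    intro l _
    rw [y.2 l, letF l, mul_add]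
  have e2 : ∑ l, occ x.1 l * fx l = ∑ l, (wt l * j) * fx l := by
    apply Finset.sum_congr rfl
    intro l _
    rw [x.2 l]
  have e3 : ∑ l, occ r.1 l * fr l = ∑ l, (wt l * j) * fr l := by
    apply Finset.sum_congr rfl
    intro l _
    rw [r.2 l]
  rw [e1, e2, e3] at hsum
  have hz : ∑ i, ne4 (bA (x.1 i)) (bA (y.1 i)) = 0 := by omega
  intro i
  have := (Finset.sum_eq_zero_iff.1 hz) i (Finset.mem_univ i)
  by_contra hne
  rw [ne4, if_neg hne] at this
  exact one_ne_zero this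

theorem scheme_correct (j : ℕ) :
    Correct (X := X j) (α := P j wA) (β := P j wB) (γ := P j wC) 2
      (pos j bA wA push_A) (pos j bB wB push_B) (pos j bC wC push_C) := by
  apply correct_two
  · intro x y h1 h2
    exact Subtype.ext (funext fun i => letB _ _ (pos_eq h1 i) (pos_eq h2 i))
  · intro x y h1 h2
    exact Subtype.ext (funext fun i => letC _ _ (pos_eq h1 i) (pos_eq h2 i))
  · intro x y hne
    by_contra hcon
    push Not at hcon
    obtain ⟨hBB, hCC, hBC, hCB⟩ := hcon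
    -- failure of BB
    have hP : (∃ p : X j, pos j bA wA push_A p = pos j bA wA push_A x ∧
          pos j bB wB push_B p = pos j bB wB push_B y) ∨
        (∃ p : X j, pos j bA wA push_A p = pos j bA wA push_A y ∧
          pos j bB wB push_B p = pos j bB wB push_B x) := by
      by_cases h1 : ∀ e : X j, pos j bA wA push_A e = pos j bA wA push_A x →
          pos j bB wB push_B e = pos j bB wB push_B y → e = x
      · right
        obtain ⟨e, h2, h3, _⟩ := hBB h1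
        exact ⟨e, h2, h3⟩
      · left
        push Not at h1
        obtain ⟨e, h2, h3, _⟩ := h1
        exact ⟨e, h2, h3⟩
    have hQ : (∃ q : X j, pos j bA wA push_A q = pos j bA wA push_A x ∧
          pos j bC wC push_C q = pos j bC wC push_C y) ∨
        (∃ q : X j, pos j bA wA push_A q = pos j bA wA push_A y ∧
          pos j bC wC push_C q = pos j bC wC push_C x) := by
      by_cases h1 : ∀ e : X j, pos j bA wA push_A e = pos j bA wA push_A x →
          pos j bC wC push_C e = pos j bC wC push_C y → e = x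
      · right
        obtain ⟨e, h2, h3, _⟩ := hCC h1
        exact ⟨e, h2, h3⟩
      · left
        push Not at h1
        obtain ⟨e, h2, h3, _⟩ := h1
        exact ⟨e, h2, h3⟩
    obtain ⟨r, t, g1, -, -, g4, g5, -⟩ := hBC
    obtain ⟨t', r', k1, -, -, k4, k5, -⟩ := hCB
    rcases hP with ⟨p, hp1, hp2⟩ | ⟨p, hp1, hp2⟩
    · rcases hQ with ⟨q, hq1, hq2⟩ | ⟨q, hq1, hq2⟩
      · exact hne (pos_mk fun i => let0 _ _ (p.1 i) ⟨pos_eq hp1 i, pos_eq hp2 i⟩ (q.1 i)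
          ⟨pos_eq hq1 i, pos_eq hq2 i⟩)
      · exact hne (pos_mk (word2 x y p q r t (pos_eq hp1) (pos_eq hp2) (pos_eq hq1) (pos_eq hq2)
          (pos_eq g4) (pos_eq g5) (pos_eq g1)))
    · rcases hQ with ⟨q, hq1, hq2⟩ | ⟨q, hq1, hq2⟩
      · exact hne (pos_mk (word2 y x p q r' t' (pos_eq hp1) (pos_eq hp2) (pos_eq hq1) (pos_eq hq2)
          (pos_eq k5) (pos_eq k4) (pos_eq k1.symm))).symm
      · exact hne (pos_mk fun i => let0 _ _ (p.1 i) ⟨pos_eq hp1 i, pos_eq hp2 i⟩ (q.1 i)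
          ⟨pos_eq hq1 i, pos_eq hq2 i⟩).symm

/-! ### Counting -/

/-- Growth rate of the number of elements. -/
noncomputable def cX : ℝ := (56 : ℝ) ^ 56 / (9 ^ 18 * 14 ^ 28 * 4 ^ 8)

/-- Growth rate of the number of positions. -/
noncomputable def cP : ℝ := (56 : ℝ) ^ 56 / (19 ^ 19 * 13 ^ 13 * 23 ^ 23)

theorem sum_wt : ∑ l, wt l = 56 := by decide

theorem card_P_le (j : ℕ) (w : Fin 4 → ℕ) (hs : ∑ l, w l = 56) (hw : ∀ l, 1 ≤ w l)
    (hc : (56 : ℝ) ^ 56 / ∏ l, (w l : ℝ) ^ w l ≤ cP) :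
    (Fintype.card (P j w) : ℝ) ≤ cP ^ j := by
  have h1 := card_words_le (k := (∑ l, wt l) * j) (fun l => w l * j) w
  have h2 : (Fintype.card (P j w) : ℝ) * ∏ l, (w l : ℝ) ^ (w l * j) ≤
      (56 : ℝ) ^ ((∑ l, wt l) * j) := by
    have h3 : ((Fintype.card (P j w) * ∏ l, w l ^ (w l * j) : ℕ) : ℝ) ≤
        (((∑ l, w l) ^ ((∑ l, wt l) * j) : ℕ) : ℝ) := by
      exact_mod_cast h1
    rw [hs] at h3
    push_cast at h3
    exact h3
  have h4 : ∏ l, (w l : ℝ) ^ (w l * j) = (∏ l, (w l : ℝ) ^ w l) ^ j := by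
    rw [← Finset.prod_pow]
    apply Finset.prod_congr rfl
    intro l _
    rw [pow_mul]
  have hpos : (0 : ℝ) < ∏ l, (w l : ℝ) ^ w l := by
    apply Finset.prod_pos
    intro l _
    have : (0 : ℝ) < w l := by exact_mod_cast hw l
    positivity
  rw [h4] at h2
  generalize (Fintype.card (P j w) : ℝ) = N at h2 ⊢
  rw [sum_wt, pow_mul, ← le_div_iff₀ (by positivity), ← div_pow] at h2
  exact h2.trans (pow_le_pow_left₀ (by positivity) hc j)

theorem rate_A : (56 : ℝ) ^ 56 / ∏ l, (wA l : ℝ) ^ wA l ≤ cP := by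
  have h : ∏ l, (wA l : ℝ) ^ wA l = 28 ^ 28 * 5 ^ 5 * 18 ^ 18 * 5 ^ 5 := by
    simp [Fin.prod_univ_succ, wA]
    norm_num
  rw [h, cP]
  apply div_le_div_of_nonneg_left (by positivity) (by positivity)
  norm_num

theorem rate_B : (56 : ℝ) ^ 56 / ∏ l, (wB l : ℝ) ^ wB l ≤ cP := by
  have h : ∏ l, (wB l : ℝ) ^ wB l = 19 ^ 19 * 13 ^ 13 * 23 ^ 23 := by
    simp [Fin.prod_univ_succ, wB]
    norm_num
  rw [h, cP]

theorem rate_C : (56 : ℝ) ^ 56 / ∏ l, (wC l : ℝ) ^ wC l ≤ cP := by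
  have h : ∏ l, (wC l : ℝ) ^ wC l = 19 ^ 19 * 13 ^ 13 * 23 ^ 23 := by
    simp [Fin.prod_univ_succ, wC]
    norm_num
  rw [h, cP]

/-- The constant in the lower bound for the number of elements. -/
noncomputable def K1 : ℝ := ∏ l, (Real.exp 1 * (wt l : ℝ))

theorem K1_pos : 0 < K1 := by
  apply Finset.prod_pos
  intro l _
  have : ∀ l, 0 < wt l := by decide
  have : (0 : ℝ) < wt l := by exact_mod_cast this l
  positivity

theorem card_X_ge (j : ℕ) (hj : 1 ≤ j) :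
    cX ^ j ≤ K1 * (j : ℝ) ^ 8 * Fintype.card (X j) := by
  have h := entropy_le wt (by decide) j hj
  have h1 : ∏ l, (wt l : ℝ) ^ wt l = 9 ^ 18 * 14 ^ 28 * 4 ^ 8 := by
    simp [Fin.prod_univ_succ, wt]
    norm_num
  have h2 : (((∑ l, wt l : ℕ) : ℝ) ^ (∑ l, wt l)) = (56 : ℝ) ^ 56 := by
    rw [sum_wt]
    norm_num
  rw [h1, h2] at h
  rw [cX, div_pow, div_le_iff₀ (by positivity)]
  calc ((56 : ℝ) ^ 56) ^ j ≤ _ := h
    _ = _ := by
      rw [K1]
      ring

theorem space_le (j : ℕ) (hj : 1 ≤ j) (m : ℕ) (hm : K1 * (j : ℝ) ^ 8 * m ≤ cX ^ j) :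
    (minSpace 2 m : ℝ) ≤ 3 * cP ^ j := by
  classical
  have h1 : (m : ℝ) ≤ Fintype.card (X j) := by
    have h2 := hm.trans (card_X_ge j hj)
    have h3 : (0 : ℝ) < K1 * (j : ℝ) ^ 8 := by
      have : (0 : ℝ) < j := by exact_mod_cast hj
      have := K1_pos
      positivity
    exact le_of_mul_le_mul_left h2 h3
  have hm' : m ≤ Fintype.card (X j) := by exact_mod_cast h1
  have ht := transfer (scheme_correct j)
    (fun i : Fin m => (Fintype.equivFin (X j)).symm (Fin.castLE hm' i))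
    ((Equiv.injective _).comp (Fin.castLE_injective hm'))
  have h4 : minSpace 2 m ≤ Fintype.card (P j wA) + Fintype.card (P j wB) +
      Fintype.card (P j wC) := Nat.sInf_le ht
  have h5 : (minSpace 2 m : ℝ) ≤ Fintype.card (P j wA) + Fintype.card (P j wB) +
      Fintype.card (P j wC) := by exact_mod_cast h4
  have hA := card_P_le j wA (by decide) (by decide) rate_A
  have hB := card_P_le j wB (by decide) (by decide) rate_B
  have hC := card_P_le j wC (by decide) (by decide) rate_C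
  linarith

/-! ### Asymptotics -/

theorem asym (b c α : ℝ) (D : ℕ) (K : ℝ) (hK : 0 < K) (hb : 1 < b) (hα : 0 < α)
    (h : b ^ (1 / α) < c)
    (hyp : ∀ j : ℕ, 1 ≤ j → ∀ m : ℕ, K * (j : ℝ) ^ D * m ≤ c ^ j →
      (minSpace 2 m : ℝ) ≤ 3 * b ^ j) :
    ∃ K' : ℝ, ∀ m : ℕ, 1 ≤ m → (minSpace 2 m : ℝ) ≤ K' * (m : ℝ) ^ α := by
  set lam : ℝ := b ^ (1 / α) with hlam
  have hb0 : 0 < b := by linarith
  have hlam0 : 0 < lam := Real.rpow_pos_of_pos hb0 _
  have hlam1 : 1 < lam := Real.one_lt_rpow hb (by positivity)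
  have hc0 : 0 < c := by linarith
  have hq : ∀ n : ℕ, (lam ^ n) ^ α = b ^ n := by
    intro n
    rw [← Real.rpow_natCast lam n, ← Real.rpow_mul hlam0.le, hlam, ← Real.rpow_mul hb0.le,
      ← Real.rpow_natCast b n]
    congr 1
    field_simp
  have ht : Filter.Tendsto (fun k : ℕ => ((k : ℝ)) ^ D / (c / lam : ℝ) ^ k) Filter.atTop
      (nhds 0) :=
    tendsto_pow_const_div_const_pow_of_one_lt D (by rw [one_lt_div hlam0]; exact h)
  obtain ⟨C1, hC1⟩ := ht.bddAbove_range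
  have hC1' : ∀ k : ℕ, (k : ℝ) ^ D / (c / lam) ^ k ≤ C1 := by
    intro k
    have := hC1 ⟨k, rfl⟩
    simpa using this
  have hC10 : 0 ≤ C1 := le_trans (by positivity) (hC1' 1)
  set C0 : ℝ := K * C1 + 1 with hC0
  have hC01 : 1 ≤ C0 := by
    have : 0 ≤ K * C1 := by positivity
    linarith
  have hC0b : ∀ k : ℕ, K * (k : ℝ) ^ D * lam ^ k ≤ C0 * c ^ k := by
    intro k
    have h1 := hC1' k
    have h2 : (0 : ℝ) < (c / lam) ^ k := by positivity
    rw [div_le_iff₀ h2, div_pow] at h1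
    have h4 : (0 : ℝ) < lam ^ k := by positivity
    have h5 : (k : ℝ) ^ D * lam ^ k ≤ C1 * c ^ k := by
      calc (k : ℝ) ^ D * lam ^ k ≤ (C1 * (c ^ k / lam ^ k)) * lam ^ k :=
            mul_le_mul_of_nonneg_right h1 h4.le
        _ = C1 * c ^ k := by field_simp
    have h6 : (0 : ℝ) < c ^ k := by positivity
    calc K * (k : ℝ) ^ D * lam ^ k = K * ((k : ℝ) ^ D * lam ^ k) := by ring
      _ ≤ K * (C1 * c ^ k) := mul_le_mul_of_nonneg_left h5 hK.le
      _ ≤ C0 * c ^ k := by rw [hC0]; nlinarith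
  refine ⟨3 * b * C0 ^ α, ?_⟩
  intro m hm
  have hm1 : (1 : ℝ) ≤ m := by exact_mod_cast hm
  have hex : ∃ k : ℕ, 1 ≤ k ∧ C0 * m ≤ lam ^ k := by
    obtain ⟨k, hk⟩ := pow_unbounded_of_one_lt (C0 * m) hlam1
    refine ⟨k + 1, by omega, hk.le.trans ?_⟩
    rw [pow_succ]
    have : (0 : ℝ) < lam ^ k := by positivity
    nlinarith
  classical
  set k := Nat.find hex with hk
  obtain ⟨hk0, hk1⟩ : 1 ≤ k ∧ C0 * m ≤ lam ^ k := Nat.find_spec hex
  have hle : (minSpace 2 m : ℝ) ≤ 3 * b ^ k := by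
    apply hyp k hk0 m
    have h2 : (K * (k : ℝ) ^ D) * (C0 * m) ≤ C0 * c ^ k :=
      (mul_le_mul_of_nonneg_left hk1 (by positivity)).trans (hC0b k)
    have h3 : C0 * (K * (k : ℝ) ^ D * m) ≤ C0 * c ^ k := by
      calc C0 * (K * (k : ℝ) ^ D * m) = (K * (k : ℝ) ^ D) * (C0 * m) := by ring
        _ ≤ _ := h2
    exact le_of_mul_le_mul_left h3 (by linarith)
  refine hle.trans ?_
  have hmα : (1 : ℝ) ≤ (m : ℝ) ^ α := Real.one_le_rpow hm1 hα.le
  have hCα : (1 : ℝ) ≤ C0 ^ α := Real.one_le_rpow hC01 hα.le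
  rcases Nat.lt_or_ge 1 k with hpos | h0
  · have hmin : ¬ (1 ≤ k - 1 ∧ C0 * m ≤ lam ^ (k - 1)) := Nat.find_min hex (by omega)
    have hmin' : lam ^ (k - 1) < C0 * m := by
      by_contra hcon
      push Not at hcon
      exact hmin ⟨by omega, hcon⟩
    have h1 : b ^ (k - 1) ≤ (C0 * m) ^ α := by
      rw [← hq (k - 1)]
      exact Real.rpow_le_rpow (by positivity) hmin'.le hα.le
    have h2 : b ^ k = b * b ^ (k - 1) := by
      rw [← pow_succ']
      congr 1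
      omega
    rw [h2]
    rw [Real.mul_rpow (by linarith) (by linarith)] at h1
    nlinarith
  · have hk' : k = 1 := by omega
    rw [hk', pow_one]
    have h1 : (1 : ℝ) ≤ C0 ^ α * (m : ℝ) ^ α := one_le_mul_of_one_le_of_one_le hCα hmα
    nlinarith

theorem cP_gt : 1 < cP := by
  rw [cP, one_lt_div (by positivity)]
  norm_num

theorem rates : cP ^ (1 / (33 / 52 : ℝ)) < cX := by
  have hP : (0 : ℝ) < cP := lt_trans one_pos cP_gt
  have hX : (0 : ℝ) < cX := by rw [cX]; positivity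
  apply lt_of_pow_lt_pow_left₀ 33 hX.le
  have h1 : (cP ^ (1 / (33 / 52 : ℝ))) ^ 33 = cP ^ 52 := by
    rw [← Real.rpow_natCast, ← Real.rpow_mul hP.le, ← Real.rpow_natCast]
    congr 1
    norm_num
  rw [h1, cP, cX, div_pow, div_pow, div_lt_div_iff₀ (by positivity) (by positivity)]
  norm_num

theorem power_bound : ∃ K : ℝ, ∀ m : ℕ, 1 ≤ m →
    (minSpace 2 m : ℝ) ≤ K * (m : ℝ) ^ (33 / 52 : ℝ) :=
  asym cP cX (33 / 52) 8 K1 K1_pos cP_gt (by norm_num) rates space_le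

/-- The space `s_A(2,m,2)` of adaptive two-probe schemes for sets of size at most two is
`O(m^(33/52))`, and `33/52 = 0.6346... < log 8 / log 24 = 0.6543...`. In particular it is not
`Omega(m^(2/3))`, not even `Omega(m^α)` for any `α > 33/52`. -/
theorem result :
    (∃ K : ℝ, ∀ m : ℕ, 1 ≤ m → (minSpace 2 m : ℝ) ≤ K * (m : ℝ) ^ (33 / 52 : ℝ)) ∧
    (∀ α : ℝ, 33 / 52 < α → ∀ c : ℝ, 0 < c → ∃ M : ℕ, ∀ m ≥ M, ∃ s : ℕ,
      HasScheme 2 m s ∧ (s : ℝ) < c * (m : ℝ) ^ α) ∧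
    (¬ ∃ c : ℝ, 0 < c ∧ ∃ M : ℕ, ∀ m ≥ M, c * (m : ℝ) ^ (2 / 3 : ℝ) ≤ (minSpace 2 m : ℝ)) ∧
    (33 / 52 : ℝ) < Real.log 8 / Real.log 24 := by
  have key : ∀ α : ℝ, 33 / 52 < α → ∀ c : ℝ, 0 < c → ∃ M : ℕ, ∀ m ≥ M, ∃ s : ℕ,
      HasScheme 2 m s ∧ (s : ℝ) < c * (m : ℝ) ^ α := by
    intro α hα c hc
    obtain ⟨K, hK⟩ := power_bound
    have hβ : 0 < α - 33 / 52 := by linarith
    have ht : Filter.Tendsto (fun m : ℕ => (m : ℝ) ^ (α - 33 / 52)) Filter.atTop Filter.atTop :=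
      (tendsto_rpow_atTop hβ).comp tendsto_natCast_atTop_atTop
    obtain ⟨M, hM⟩ := (ht.eventually (Filter.eventually_gt_atTop (K / c))).exists_forall_of_atTop
    refine ⟨max M 1, fun m hm => ⟨minSpace 2 m,
      Pool.Agent.Results.MP_b7335c_lc.TwoProbePowerSaving.minSpace_spec 2 m, ?_⟩⟩
    have hm1 : 1 ≤ m := le_trans (le_max_right _ _) hm
    have hm0 : (0 : ℝ) < m := by exact_mod_cast hm1
    have h1 := hM m (le_trans (le_max_left _ _) hm)
    rw [div_lt_iff₀ hc] at h1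
    have h2 : (m : ℝ) ^ α = (m : ℝ) ^ (α - 33 / 52) * (m : ℝ) ^ (33 / 52 : ℝ) := by
      rw [← Real.rpow_add hm0]
      congr 1
      ring
    have h3 : (0 : ℝ) < (m : ℝ) ^ (33 / 52 : ℝ) := Real.rpow_pos_of_pos hm0 _
    calc (minSpace 2 m : ℝ) ≤ K * (m : ℝ) ^ (33 / 52 : ℝ) := hK m hm1
      _ < ((m : ℝ) ^ (α - 33 / 52) * c) * (m : ℝ) ^ (33 / 52 : ℝ) :=
          mul_lt_mul_of_pos_right h1 h3
      _ = c * (m : ℝ) ^ α := by rw [h2]; ring
  refine ⟨power_bound, key, ?_, ?_⟩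
  · rintro ⟨c, hc, M, hM⟩
    obtain ⟨M', hM'⟩ := key (2 / 3) (by norm_num) c hc
    obtain ⟨s, hs, hlt⟩ := hM' (max M M') (le_max_right _ _)
    have h1 := hM (max M M') (le_max_left _ _)
    have h2 : (minSpace 2 (max M M') : ℝ) ≤ s := by
      have : minSpace 2 (max M M') ≤ s := Nat.sInf_le hs
      exact_mod_cast this
    linarith
  · rw [div_lt_div_iff₀ (by norm_num) (Real.log_pos (by norm_num))]
    have h1 : 33 * Real.log 24 = Real.log (24 ^ 33) := by rw [Real.log_pow]; push_cast; ring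
    have h2 : Real.log 8 * 52 = Real.log (8 ^ 52) := by rw [Real.log_pow]; push_cast; ring
    rw [h1, h2]
    apply Real.log_lt_log (by norm_num)
    norm_num

end Pool.Agent.Y370.Bitprobe.BetterExponent
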